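import Pool.Agent.Helper76.TK2.StA

/-!
# Module B42 of project TK2: level 4
-/

set_option autoImplicit false

namespace Pool.Agent.Helper68.TK2

open Pool.Agent.Helper76.TK2 Pool.Agent.Helper14.CV Pool.Agent.Helper14.TT

/-- Descent: a homogeneous potential invariant under the two parabolic generators which vanishes
at the three cusps vanishes. -/
private theorem descent (K : ℤ → ℤ → ℂ) (hH : Homog K)
    (h1 : ∀ p q : ℤ, (p ≠ 0 ∨ q ≠ 0) → K (p + q) q = K p q)
    (h2 : ∀ p q : ℤ, (p ≠ 0 ∨ q ≠ 0) → K p (4 * p + q) = K p q)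
    (k1 : K 1 0 = 0) (k2 : K 0 1 = 0) (k3 : K 1 2 = 0) :
    ∀ N : ℕ, ∀ p q : ℤ, p.natAbs + q.natAbs ≤ N → (p ≠ 0 ∨ q ≠ 0) → K p q = 0 := by
  have hdown : ∀ p q : ℤ, q ≠ 0 → K (p - q) q = K p q := by
    intro p q hq
    have := h1 (p - q) q (Or.inr hq)
    rw [sub_add_cancel] at this
    exact this.symm
  have hdown2 : ∀ p q : ℤ, p ≠ 0 → K p (q - 4 * p) = K p q := by
    intro p q hp
    have := h2 p (q - 4 * p) (Or.inl hp)
    rw [add_sub_cancel] at this
    exact this.symm
  intro N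
  induction N with
  | zero =>
    intro p q h hpq
    exfalso
    rcases hpq with hp | hq <;> omega
  | succ N ih =>
    intro p q h hpq
    by_cases hp : p = 0
    · subst hp
      have hq : q ≠ 0 := by simpa using hpq
      have := hH q 0 1 hq (Or.inr one_ne_zero)
      rw [mul_zero, mul_one] at this
      rw [this, k2]
    by_cases hq : q = 0
    · subst hq
      have := hH p 1 0 hp (Or.inl one_ne_zero)
      rw [mul_zero, mul_one] at this
      rw [this, k1]
    rcases lt_trichotomy (q.natAbs) (2 * p.natAbs) with hlt | heq | hgt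
    · -- reduce p
      by_cases hs : (0 < p ∧ 0 < q) ∨ (p < 0 ∧ q < 0)
      · rw [← hdown p q hq]
        exact ih _ _ (by omega) (Or.inr hq)
      · rw [← h1 p q hpq]
        exact ih _ _ (by omega) (Or.inr hq)
    · by_cases hs : q = 2 * p
      · have := hH p 1 2 hp (Or.inl one_ne_zero)
        rw [mul_one, mul_comm p 2, ← hs] at this
        rw [this, k3]
      · have hs' : q = p * (-2) := by omega
        have e1 := hH p 1 (-2) hp (Or.inl one_ne_zero)
        rw [mul_one, ← hs'] at e1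
        have e2 := h1 1 (-2) (Or.inl one_ne_zero)
        have e3 := hH (-1) 1 2 (by norm_num) (Or.inl one_ne_zero)
        norm_num at e2 e3
        rw [e1, ← e2, e3, k3]
    · -- reduce q
      by_cases hs : (0 < p ∧ 0 < q) ∨ (p < 0 ∧ q < 0)
      · rw [← hdown2 p q hp]
        exact ih _ _ (by omega) (Or.inl hp)
      · rw [← h2 p q hpq]
        exact ih _ _ (by omega) (Or.inl hp)

private theorem zero_of_neg {x : ℂ} (h : x = -x) : x = 0 := by
  have h1 : (2 : ℂ) * x = 0 := by linear_combination h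
  exact (mul_eq_zero.mp h1).resolve_left two_ne_zero

private theorem const_of (K : ℤ → ℤ → ℂ) (hS : Sym 0 2 K)
    (hR : ∀ p q : ℤ, (p ≠ 0 ∨ q ≠ 0) → K (-p) q = -K p q) : EqC K 0 := by
  have h1 : ∀ p q : ℤ, (p ≠ 0 ∨ q ≠ 0) → K (p + q) q = K p q := by
    intro p q hpq
    obtain ⟨c, hc⟩ := hS.2 1 1 0 1 (by norm_num) (by norm_num) (by norm_num)
    have e1 := hc 1 0 (Or.inl one_ne_zero)
    have e2 := hc p q hpq
    simp only [act] at e1 e2
    norm_num at e1 e2
    rw [e2, e1, add_zero]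
  have h2 : ∀ p q : ℤ, (p ≠ 0 ∨ q ≠ 0) → K p (4 * p + q) = K p q := by
    intro p q hpq
    obtain ⟨c, hc⟩ := hS.2 1 0 4 1 (by norm_num) (by norm_num) (by norm_num)
    have e1 := hc 0 1 (Or.inr one_ne_zero)
    have e2 := hc p q hpq
    simp only [act] at e1 e2
    norm_num at e1 e2
    rw [e2, e1, add_zero]
  have k1 : K 1 0 = 0 := by
    have e1 := hR 1 0 (Or.inl one_ne_zero)
    have e2 := hS.1 (-1) 1 0 (by norm_num) (Or.inl one_ne_zero)
    norm_num at e1 e2
    exact zero_of_neg (by rw [← e1, e2])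
  have k2 : K 0 1 = 0 := by
    have e1 := hR 0 1 (Or.inr one_ne_zero)
    rw [neg_zero] at e1
    exact zero_of_neg e1
  have k3 : K 1 2 = 0 := by
    have e1 := hR 1 2 (Or.inl one_ne_zero)
    have e2 := h1 (-1) 2 (Or.inr two_ne_zero)
    norm_num at e1 e2
    exact zero_of_neg (by rw [← e1, ← e2])
  refine ⟨0, fun p q hpq => ?_⟩
  rw [descent K hS.1 h1 h2 k1 k2 k3 _ p q le_rfl hpq]
  simp

/-- Module B42. -/
theorem hB42 : B42 := by
  intro K hK hst
  obtain ⟨c, hc⟩ := hst
  have hc' : ∀ p q : ℤ, (p ≠ 0 ∨ q ≠ 0) → K (-p) q = -K p q + c := by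
    intro p q hpq
    have h := hc p q hpq
    simp only [act, Pi.neg_apply] at h
    have e1 : (-1 * p + 0 * q : ℤ) = -p := by ring
    have e2 : (0 * p + 1 * q : ℤ) = q := by ring
    rwa [e1, e2] at h
  set L : ℤ → ℤ → ℂ := fun p q => K p q - c / 2 with hL
  have hLS : Sym 0 2 L := by
    refine ⟨fun k p q hk hpq => ?_, fun a b c' d hdet hb hc'' => ?_⟩
    · simp only [hL]
      rw [hK.1 k p q hk hpq]
    · obtain ⟨e, he⟩ := hK.2 a b c' d hdet hb hc''
      refine ⟨e, fun p q hpq => ?_⟩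
      have h := he p q hpq
      simp only [act] at h
      simp only [act, hL]
      rw [h]
      ring
  have hLR : ∀ p q : ℤ, (p ≠ 0 ∨ q ≠ 0) → L (-p) q = -L p q := by
    intro p q hpq
    simp only [hL]
    rw [hc' p q hpq]
    ring
  obtain ⟨e, he⟩ := const_of L hLS hLR
  refine ⟨e + c / 2, fun p q hpq => ?_⟩
  have h := he p q hpq
  simp only [hL, Pi.zero_apply, zero_add] at h
  simp only [Pi.zero_apply, zero_add]
  linear_combination h

end Pool.Agent.Helper68.TK2
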